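import Mathlib

/-!
# The zeros of the Dickson polynomials
-/

set_option autoImplicit false

open Polynomial Real

namespace Pool.Agent.H82.DK

/-- the angles -/
noncomputable def th (n : ℕ) (l : ℕ) : ℝ := (2 * (l : ℝ) + 1) * π / (2 * ((n : ℝ) + 1))

/-- the zeros -/
noncomputable def ed (n : ℕ) (l : Fin (n + 1)) : ℝ := -2 * cos (th n l)

theorem dick_eval (N : ℕ) (t : ℝ) : (dickson 1 (1 : ℝ) N).eval (2 * cos t) = 2 * cos (N * t) := by
  rw [dickson_one_one_eq_chebyshev_C]
  have := Chebyshev.C_two_mul_real_cos t (N : ℤ)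
  push_cast at this
  exact this

theorem dick_eval_neg {N : ℕ} (hN : Odd N) (t : ℝ) :
    (dickson 1 (1 : ℝ) N).eval (-2 * cos t) = -2 * cos (N * t) := by
  have h : -2 * cos t = 2 * cos (π - t) := by rw [cos_pi_sub]; ring
  rw [h, dick_eval]
  have e : (N : ℝ) * (π - t) = N * π - N * t := by ring
  rw [e, cos_sub, sin_nat_mul_pi, cos_nat_mul_pi, hN.neg_one_pow]
  ring

theorem dick_monic (N : ℕ) : (dickson 1 (1 : ℝ) (N + 1)).Monic ∧
    (dickson 1 (1 : ℝ) (N + 1)).natDegree = N + 1 := by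
  induction N using Nat.strong_induction_on with
  | _ N ih =>
    match N, ih with
    | 0, _ => exact ⟨by simp [monic_X], by simp⟩
    | 1, _ =>
      have h : dickson 1 (1 : ℝ) (1 + 1) = X ^ 2 - C 2 := by
        rw [dickson_two]
        simp
        norm_num
        exact (map_ofNat C 2).symm
      rw [h]
      exact ⟨monic_X_pow_sub_C 2 two_ne_zero, natDegree_X_pow_sub_C⟩
    | N + 2, ih =>
      obtain ⟨h1, h2⟩ := ih (N + 1) (by omega)
      obtain ⟨h3, h4⟩ := ih N (by omega)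
      have h5 : dickson 1 (1 : ℝ) (N + 2 + 1) = X * dickson 1 (1 : ℝ) (N + 1 + 1) -
          dickson 1 (1 : ℝ) (N + 1) := by
        rw [show N + 2 + 1 = (N + 1) + 2 by ring, dickson_add_two]
        simp
      have h6 : (X * dickson 1 (1 : ℝ) (N + 1 + 1)).Monic := monic_X.mul h1
      have h7 : (X * dickson 1 (1 : ℝ) (N + 1 + 1)).natDegree = N + 2 + 1 := by
        rw [monic_X.natDegree_mul h1, natDegree_X, h2]
        ring
      have h8 : (dickson 1 (1 : ℝ) (N + 1)).degree < (X * dickson 1 (1 : ℝ) (N + 1 + 1)).degree := by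
        rw [degree_eq_natDegree h3.ne_zero, degree_eq_natDegree h6.ne_zero, h4, h7]
        exact_mod_cast (by omega : N + 1 < N + 2 + 1)
      rw [h5]
      refine ⟨h6.sub_of_left h8, ?_⟩
      rw [natDegree_sub_eq_left_of_natDegree_lt, h7]
      rw [h4, h7]
      omega

theorem th_pos (n l : ℕ) : 0 < th n l := by
  unfold th
  positivity

theorem th_lt {n l : ℕ} (hl : l ≤ n) : th n l < π := by
  unfold th
  rw [div_lt_iff₀ (by positivity)]
  have h : (l : ℝ) ≤ n := by exact_mod_cast hl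
  nlinarith [pi_pos]

theorem th_lt_th {n l k : ℕ} (h : l < k) : th n l < th n k := by
  unfold th
  have h' : (l : ℝ) < k := by exact_mod_cast h
  have := pi_pos
  gcongr

theorem ed_strictMono (n : ℕ) : StrictMono (ed n) := by
  intro l k hlk
  unfold ed
  have h1 := cos_lt_cos_of_nonneg_of_le_pi (th_pos n l).le (th_lt (by omega : (k : ℕ) ≤ n)).le
    (th_lt_th (n := n) hlk)
  linarith

theorem mul_th (n l : ℕ) : ((n + 1 : ℕ) : ℝ) * th n l = (2 * (l : ℝ) + 1) * π / 2 := by
  unfold th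
  have h : (n : ℝ) + 1 ≠ 0 := by positivity
  push_cast
  field_simp

theorem ed_root {n : ℕ} (hn : Even n) (l : Fin (n + 1)) :
    (dickson 1 (1 : ℝ) (n + 1)).eval (ed n l) = 0 := by
  unfold ed
  rw [dick_eval_neg hn.add_one, mul_th]
  have : cos ((2 * ((l : ℕ) : ℝ) + 1) * π / 2) = 0 := by
    rw [cos_eq_zero_iff]
    exact ⟨(l : ℕ), by push_cast; ring⟩
  rw [this, mul_zero]

theorem dick_prod {n : ℕ} (hn : Even n) :
    dickson 1 (1 : ℝ) (n + 1) = ∏ i, (X - C (ed n i)) := by
  obtain ⟨h1, h2⟩ := dick_monic n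
  have h3 : (∏ i, (X - C (ed n i)) : ℝ[X]) ∣ dickson 1 (1 : ℝ) (n + 1) := by
    refine Finset.prod_dvd_of_coprime ?_ fun i _ => ?_
    · intro i _ j _ hij
      exact pairwise_coprime_X_sub_C (ed_strictMono n).injective hij
    · exact dvd_iff_isRoot.2 (ed_root hn i)
  have h4 : (∏ i, (X - C (ed n i)) : ℝ[X]).Monic := monic_prod_X_sub_C _ _
  have h5 : (∏ i, (X - C (ed n i)) : ℝ[X]).natDegree = n + 1 := by
    rw [natDegree_prod_of_monic _ _ fun i _ => monic_X_sub_C _]
    simp
  exact eq_of_monic_of_dvd_of_natDegree_le h4 h1 h3 (by rw [h2, h5])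

theorem abs_prod {n : ℕ} (hn : Even n) (t : ℝ) :
    |∏ i, (-2 * cos t - ed n i)| = 2 * |cos ((n + 1 : ℕ) * t)| := by
  have h : (dickson 1 (1 : ℝ) (n + 1)).eval (-2 * cos t) = ∏ i, (-2 * cos t - ed n i) := by
    rw [dick_prod hn, eval_prod]
    simp
  rw [← h, dick_eval_neg hn.add_one, abs_mul]
  norm_num

theorem ed_mid {n : ℕ} (hn : Even n) : ed n ⟨n / 2, by omega⟩ = 0 := by
  unfold ed
  have h : th n (n / 2) = π / 2 := by
    unfold th
    obtain ⟨k, hk⟩ := hn
    have h2 : n / 2 = k := by omega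
    rw [h2, hk]
    have : (k : ℝ) + k + 1 ≠ 0 := by positivity
    push_cast
    field_simp
    ring
  simp only
  rw [h, cos_pi_div_two, mul_zero]

/-- the coefficients of `(-2 cos t) ^ j * 2 sin t` -/
def cc : ℕ → ℕ → ℤ
  | 0, b => if b = 0 then 2 else 0
  | j + 1, 0 => -(cc j 1)
  | j + 1, b + 1 => -(cc j b + cc j (b + 2))

theorem cc_zero : ∀ (j b : ℕ), j < b → cc j b = 0
  | 0, b, h => by
    unfold cc
    rw [if_neg (by omega)]
  | j + 1, 0, h => by omega
  | j + 1, b + 1, h => by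
    unfold cc
    rw [cc_zero j b (by omega), cc_zero j (b + 2) (by omega)]
    rfl

theorem cc_sum (t : ℝ) : ∀ (j m : ℕ), j < m →
    ∑ b ∈ Finset.range m, (cc j b : ℝ) * sin ((b + 1) * t) = (-2 * cos t) ^ j * (2 * sin t)
  | 0, m, h => by
    rw [Finset.sum_eq_single 0]
    · simp [cc]
    · intro b _ hb
      unfold cc
      rw [if_neg hb]
      simp
    · intro h0
      exact absurd (Finset.mem_range.2 h) h0
  | j + 1, m, h => by
    obtain ⟨m', rfl⟩ : ∃ m', m = m' + 1 := ⟨m - 1, by omega⟩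
    have hj := cc_sum t j (m' + 2) (by omega)
    rw [pow_succ, mul_assoc, mul_comm (-2 * cos t) (2 * sin t), ← mul_assoc, ← hj,
      Finset.sum_mul]
    have hterm : ∀ b : ℕ, (cc j b : ℝ) * sin ((b + 1) * t) * (-2 * cos t) =
        -(cc j b : ℝ) * sin ((b + 2) * t) - (cc j b : ℝ) * sin (b * t) := by
      intro b
      have e1 : ((b : ℝ) + 2) * t = (b + 1) * t + t := by ring
      have e2 : (b : ℝ) * t = (b + 1) * t - t := by ring
      rw [e1, e2, sin_add, sin_sub]
      ring
    rw [Finset.sum_congr rfl fun b _ => hterm b, Finset.sum_sub_distrib]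
    -- the left-hand side
    rw [Finset.sum_range_succ' (fun b => ((cc (j + 1) b : ℤ) : ℝ) * sin (((b : ℕ) + 1) * t)) m']
    have h1 : ∑ b ∈ Finset.range m', ((cc (j + 1) (b + 1) : ℤ) : ℝ) * sin ((((b + 1 : ℕ) : ℝ) + 1) * t) =
        ∑ b ∈ Finset.range m', (-(cc j b : ℝ) * sin ((b + 2) * t)) -
          ∑ b ∈ Finset.range m', (cc j (b + 2) : ℝ) * sin ((b + 2) * t) := by
      rw [← Finset.sum_sub_distrib]
      refine Finset.sum_congr rfl fun b _ => ?_
      have : cc (j + 1) (b + 1) = -(cc j b + cc j (b + 2)) := rfl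
      rw [this]
      push_cast
      have e : ((b : ℝ) + 1 + 1) = b + 2 := by ring
      rw [e]
      ring
    have h2 : ∑ b ∈ Finset.range (m' + 2), (-(cc j b : ℝ) * sin ((b + 2) * t)) =
        ∑ b ∈ Finset.range m', (-(cc j b : ℝ) * sin ((b + 2) * t)) := by
      rw [Finset.sum_range_succ, Finset.sum_range_succ, cc_zero j m' (by omega),
        cc_zero j (m' + 1) (by omega)]
      simp
    have h3 : ∑ b ∈ Finset.range (m' + 2), (cc j b : ℝ) * sin (b * t) =
        ∑ b ∈ Finset.range m', (cc j (b + 2) : ℝ) * sin ((b + 2) * t) + (cc j 1 : ℝ) * sin t := by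
      rw [Finset.sum_range_succ', Finset.sum_range_succ']
      simp only [Nat.cast_zero, zero_mul, sin_zero, mul_zero, add_zero]
      congr 1
      · refine Finset.sum_congr rfl fun b _ => ?_
        push_cast
        have e : ((b : ℝ) + 1 + 1) = b + 2 := by ring
        rw [e]
      · simp
    have h4 : cc (j + 1) 0 = -(cc j 1) := rfl
    rw [h1, h2, h3, h4]
    generalize ∑ b ∈ Finset.range m', (-(cc j b : ℝ) * sin ((b + 2) * t)) = S1
    generalize ∑ b ∈ Finset.range m', ((cc j (b + 2) : ℝ) * sin ((b + 2) * t)) = S2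
    rw [Int.cast_neg, Nat.cast_zero, zero_add, one_mul]
    ring

end Pool.Agent.H82.DK
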