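import Pool.Agent.H82.DK.A
import Pool.Agent.Y118.HP.Defs

/-!
# The periods in terms of the sines
-/

set_option autoImplicit false

open Real MeasureTheory intervalIntegral

namespace Pool.Agent.H82.DK

/-- half the length of a gap -/
noncomputable def hh (n : ℕ) : ℝ := π / (2 * ((n : ℝ) + 1))

/-- the centre of the `l`-th gap -/
noncomputable def ph (n l : ℕ) : ℝ := ((l : ℝ) + 1) * π / ((n : ℝ) + 1)

/-- the weight -/
noncomputable def wt (n : ℕ) (v : ℝ) : ℝ := (√(2 * |cos ((n + 1 : ℕ) * v)|))⁻¹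

theorem hh_pos (n : ℕ) : 0 < hh n := by unfold hh; positivity

theorem ph_sub (n l : ℕ) : ph n l - hh n = th n l := by
  unfold ph hh th
  have : (n : ℝ) + 1 ≠ 0 := by positivity
  field_simp
  try ring

theorem ph_add (n l : ℕ) : ph n l + hh n = th n (l + 1) := by
  unfold ph hh th
  have : (n : ℝ) + 1 ≠ 0 := by positivity
  push_cast
  field_simp
  try ring

theorem wt_le {n : ℕ} {v : ℝ} (hv : |v| < hh n) :
    wt n v ≤ √(hh n) * ((hh n - v) ^ (-(1 / 2) : ℝ) + (hh n + v) ^ (-(1 / 2) : ℝ)) := by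
  have hh0 := hh_pos n
  have hN : (0 : ℝ) < (n : ℝ) + 1 := by positivity
  have h1 : 2 / π * ((n + 1 : ℕ) * (hh n - |v|)) ≤ |cos ((n + 1 : ℕ) * v)| := by
    have h2 : ((n + 1 : ℕ) : ℝ) * (hh n - |v|) = π / 2 - (n + 1 : ℕ) * |v| := by
      unfold hh
      push_cast
      field_simp
    have h3 : 0 ≤ ((n + 1 : ℕ) : ℝ) * (hh n - |v|) := mul_nonneg (Nat.cast_nonneg _) (by linarith)
    have h4 : ((n + 1 : ℕ) : ℝ) * (hh n - |v|) ≤ π / 2 := by
      rw [h2]
      have : (0 : ℝ) ≤ (n + 1 : ℕ) * |v| := by positivity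
      linarith
    have h5 := mul_le_sin h3 h4
    refine h5.trans ?_
    rw [h2, sin_pi_div_two_sub]
    have h6 : cos ((n + 1 : ℕ) * |v|) = cos ((n + 1 : ℕ) * v) := by
      rcases abs_choice v with h | h
      · rw [h]
      · rw [h, mul_neg, cos_neg]
    rw [h6]
    exact le_abs_self _
  have h2 : 2 / π * ((n + 1 : ℕ) * (hh n - |v|)) = (hh n - |v|) / hh n := by
    unfold hh
    have := pi_pos
    push_cast
    field_simp
  rw [h2] at h1
  have hd : 0 < hh n - |v| := by linarith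
  have h3 : (hh n - |v|) / hh n ≤ 2 * |cos ((n + 1 : ℕ) * v)| := by
    have : 0 ≤ |cos ((n + 1 : ℕ) * v)| := abs_nonneg _
    linarith
  have h4 : wt n v ≤ √(hh n) * (hh n - |v|) ^ (-(1 / 2) : ℝ) := by
    unfold wt
    rw [rpow_neg hd.le, ← sqrt_eq_rpow, ← div_eq_mul_inv, ← sqrt_div hh0.le, ← inv_div, sqrt_inv]
    exact inv_anti₀ (sqrt_pos.2 (by positivity)) (sqrt_le_sqrt h3)
  refine h4.trans (mul_le_mul_of_nonneg_left ?_ (sqrt_nonneg _))
  have hv' := abs_lt.1 hv
  have h5 : 0 ≤ (hh n - v) ^ (-(1 / 2) : ℝ) := rpow_nonneg (by linarith) _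
  have h6 : 0 ≤ (hh n + v) ^ (-(1 / 2) : ℝ) := rpow_nonneg (by linarith) _
  rcases abs_choice v with h | h
  · rw [h]
    linarith
  · rw [h, sub_neg_eq_add]
    linarith

theorem wt_meas (n : ℕ) : Measurable (wt n) := by
  unfold wt
  fun_prop

theorem wt_int (n : ℕ) : IntervalIntegrable (wt n) volume (-(hh n)) (hh n) := by
  have hh0 := hh_pos n
  have h0 : ∀ a b : ℝ, IntervalIntegrable (fun x : ℝ => x ^ (-(1 / 2) : ℝ)) volume a b :=
    fun a b => intervalIntegrable_rpow' (by norm_num)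
  have h1 : IntervalIntegrable (fun v : ℝ => (hh n - v) ^ (-(1 / 2) : ℝ)) volume (-(hh n)) (hh n) := by
    have := (h0 (2 * hh n) 0).comp_sub_left (hh n)
    rw [sub_zero, show hh n - 2 * hh n = -(hh n) by ring] at this
    exact this
  have h2 : IntervalIntegrable (fun v : ℝ => (hh n + v) ^ (-(1 / 2) : ℝ)) volume (-(hh n)) (hh n) := by
    have := (h0 0 (2 * hh n)).comp_add_left (hh n)
    rw [zero_sub, show 2 * hh n - hh n = hh n by ring] at this
    exact this
  refine IntervalIntegrable.mono_fun' ((h1.add h2).const_mul (√(hh n))) (wt_meas n).aestronglyMeasurable ?_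
  rw [Set.uIoc_of_le (by linarith)]
  have h3 : ∀ᵐ v ∂(volume.restrict (Set.Ioc (-(hh n)) (hh n))), v ≠ hh n := by
    refine ae_restrict_of_ae ?_
    have h4 : ∀ᵐ v ∂(volume : Measure ℝ), v ∈ ({hh n}ᶜ : Set ℝ) :=
      compl_mem_ae_iff.2 (measure_singleton _)
    filter_upwards [h4] with v hv
    exact hv
  filter_upwards [h3, ae_restrict_mem measurableSet_Ioc] with v hv1 hv2
  have hv : |v| < hh n := abs_lt.2 ⟨hv2.1, lt_of_le_of_ne hv2.2 hv1⟩
  rw [norm_of_nonneg (by unfold wt; positivity)]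
  exact wt_le hv

/-- the basic integrals -/
noncomputable def II (n b : ℕ) : ℝ := ∫ v in (-(hh n))..(hh n), cos ((b + 1) * v) * wt n v

theorem cos_int (n b : ℕ) :
    IntervalIntegrable (fun v => cos (((b : ℝ) + 1) * v) * wt n v) volume (-(hh n)) (hh n) :=
  (wt_int n).continuousOn_mul (by fun_prop)

theorem sin_int (n b : ℕ) :
    IntervalIntegrable (fun v => sin (((b : ℝ) + 1) * v) * wt n v) volume (-(hh n)) (hh n) :=
  (wt_int n).continuousOn_mul (by fun_prop)

theorem wt_neg (n : ℕ) (v : ℝ) : wt n (-v) = wt n v := by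
  unfold wt
  rw [mul_neg, cos_neg]

theorem sin_zero_int (n b : ℕ) : ∫ v in (-(hh n))..(hh n), sin ((b + 1) * v) * wt n v = 0 := by
  have h := intervalIntegral.integral_comp_neg (a := -(hh n)) (b := hh n)
    (fun v => sin (((b : ℝ) + 1) * v) * wt n v)
  rw [neg_neg] at h
  have h2 : ∫ v in (-(hh n))..(hh n), sin (((b : ℝ) + 1) * -v) * wt n (-v) =
      -∫ v in (-(hh n))..(hh n), sin (((b : ℝ) + 1) * v) * wt n v := by
    rw [← intervalIntegral.integral_neg]
    refine intervalIntegral.integral_congr fun v _ => ?_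
    change sin (((b : ℝ) + 1) * -v) * wt n (-v) = -(sin (((b : ℝ) + 1) * v) * wt n v)
    rw [wt_neg, mul_neg, sin_neg]
    ring
  rw [h2] at h
  linarith

theorem wt_shift (n l : ℕ) (v : ℝ) : (√(2 * |cos ((n + 1 : ℕ) * (ph n l + v))|))⁻¹ = wt n v := by
  unfold wt
  have h : ((n + 1 : ℕ) : ℝ) * (ph n l + v) = (n + 1 : ℕ) * v + (l + 1 : ℕ) * π := by
    unfold ph
    have : (n : ℝ) + 1 ≠ 0 := by positivity
    push_cast
    field_simp
    ring
  rw [h, cos_add_nat_mul_pi, abs_mul, abs_pow, abs_neg, abs_one, one_pow, one_mul]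

/-- **the periods** -/
theorem per_eq {n : ℕ} (hn : Even n) (l j : Fin n) :
    Pool.Agent.Y118.HP.per (ed n) l j =
      ∑ b ∈ Finset.range n, sin ((b + 1) * ph n l) * II n b * (cc j b : ℝ) := by
  have hl : (l : ℕ) + 1 ≤ n := l.2
  obtain ⟨a, ha⟩ : ∃ a, a = th n l := ⟨_, rfl⟩
  obtain ⟨c, hc⟩ : ∃ c, c = th n ((l : ℕ) + 1) := ⟨_, rfl⟩
  have hac : a < c := by rw [ha, hc]; exact th_lt_th (Nat.lt_succ_self _)
  have ha0 : 0 < a := by rw [ha]; exact th_pos _ _
  have hcp : c < π := by rw [hc]; exact th_lt hl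
  have e1 : ed n l.castSucc = -2 * cos a := by
    unfold ed
    rw [ha]
    rfl
  have e2 : ed n l.succ = -2 * cos c := by
    unfold ed
    rw [hc]
    simp
  have hmono : MonotoneOn (fun t : ℝ => -2 * cos t) (Set.Icc a c) := by
    intro x hx y hy hxy
    have := cos_le_cos_of_nonneg_of_le_pi (by linarith [hx.1]) (by linarith [hy.2]) hxy
    simp only
    linarith
  have himg : (fun t : ℝ => -2 * cos t) '' Set.Icc a c = Set.Icc (-2 * cos a) (-2 * cos c) :=
    ContinuousOn.image_Icc_of_monotoneOn hac.le (by fun_prop) hmono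
  have hle : -2 * cos a ≤ -2 * cos c := hmono (Set.left_mem_Icc.2 hac.le) (Set.right_mem_Icc.2 hac.le) hac.le
  have hinj : Set.InjOn (fun t : ℝ => -2 * cos t) (Set.Icc a c) := by
    intro x hx y hy hxy
    simp only at hxy
    exact injOn_cos ⟨by linarith [hx.1], by linarith [hx.2]⟩ ⟨by linarith [hy.1], by linarith [hy.2]⟩
      (by linarith)
  have hder : ∀ x ∈ Set.Icc a c, HasDerivWithinAt (fun t : ℝ => -2 * cos t) (2 * sin x) (Set.Icc a c) x := by
    intro x _
    have := ((hasDerivAt_cos x).const_mul (-2)).hasDerivWithinAt (s := Set.Icc a c)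
    have e : 2 * sin x = -2 * -sin x := by ring
    rw [e]
    exact this
  have key := integral_image_eq_integral_abs_deriv_smul measurableSet_Icc hder hinj
    (fun x : ℝ => x ^ (j : ℕ) / √|∏ i, (x - ed n i)|)
  rw [himg] at key
  have step1 : Pool.Agent.Y118.HP.per (ed n) l j = ∫ t in a..c, (-2 * cos t) ^ (j : ℕ) * (2 * sin t) *
      (√(2 * |cos ((n + 1 : ℕ) * t)|))⁻¹ := by
    unfold Pool.Agent.Y118.HP.per
    rw [e1, e2, intervalIntegral.integral_of_le hle, ← integral_Icc_eq_integral_Ioc, key,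
      intervalIntegral.integral_of_le hac.le, ← integral_Icc_eq_integral_Ioc]
    refine setIntegral_congr_fun measurableSet_Icc fun t ht => ?_
    simp only [smul_eq_mul]
    rw [abs_prod hn, abs_of_nonneg (mul_nonneg zero_le_two
      (sin_nonneg_of_nonneg_of_le_pi (by linarith [ht.1]) (by linarith [ht.2])))]
    ring
  have step2 : ∫ t in a..c, (-2 * cos t) ^ (j : ℕ) * (2 * sin t) *
      (√(2 * |cos ((n + 1 : ℕ) * t)|))⁻¹ = ∫ v in (-(hh n))..(hh n),
        (-2 * cos (ph n l + v)) ^ (j : ℕ) * (2 * sin (ph n l + v)) * wt n v := by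
    have h := intervalIntegral.integral_comp_add_left (a := -(hh n)) (b := hh n)
      (fun t => (-2 * cos t) ^ (j : ℕ) * (2 * sin t) * (√(2 * |cos ((n + 1 : ℕ) * t)|))⁻¹) (ph n l)
    rw [ph_add, ← sub_eq_add_neg, ph_sub, ← ha, ← hc] at h
    rw [← h]
    refine intervalIntegral.integral_congr fun v _ => ?_
    change (-2 * cos (ph n l + v)) ^ (j : ℕ) * (2 * sin (ph n l + v)) *
      (√(2 * |cos ((n + 1 : ℕ) * (ph n l + v))|))⁻¹ = _
    rw [wt_shift]
  have step3 : ∀ v : ℝ, (-2 * cos (ph n l + v)) ^ (j : ℕ) * (2 * sin (ph n l + v)) * wt n v =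
      ∑ b ∈ Finset.range n, (sin ((b + 1) * ph n l) * (cc j b : ℝ) * (cos ((b + 1) * v) * wt n v) +
        cos ((b + 1) * ph n l) * (cc j b : ℝ) * (sin ((b + 1) * v) * wt n v)) := by
    intro v
    rw [← cc_sum (ph n l + v) j n j.2, Finset.sum_mul]
    refine Finset.sum_congr rfl fun b _ => ?_
    rw [mul_add, sin_add]
    ring
  rw [step1, step2, intervalIntegral.integral_congr fun v _ => step3 v,
    intervalIntegral.integral_finsetSum]
  · refine Finset.sum_congr rfl fun b _ => ?_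
    rw [intervalIntegral.integral_add ((cos_int n b).const_mul _) ((sin_int n b).const_mul _),
      intervalIntegral.integral_const_mul, intervalIntegral.integral_const_mul, sin_zero_int, mul_zero,
      add_zero]
    unfold II
    ring
  · intro b _
    exact ((cos_int n b).const_mul _).add ((sin_int n b).const_mul _)

end Pool.Agent.H82.DK
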