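import Pool.Agent.H82.DK.B
import Pool.Agent.Y118.HP.LegC

/-!
# The sine matrix
-/

set_option autoImplicit false

open Real Matrix Polynomial

namespace Pool.Agent.H82.DK

variable {n : ℕ}

/-- the sine matrix -/
noncomputable def SM (n : ℕ) : Matrix (Fin n) (Fin n) ℝ := Matrix.of fun l b => sin (((b : ℕ) + 1) * ph n l)

/-- the eigenvalues of the path -/
noncomputable def lm (n : ℕ) (b : ℕ) : ℝ := 2 * cos (ph n b)

theorem SM_apply (l b : Fin n) : SM n l b = sin (((b : ℕ) + 1) * ph n l) := rfl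

theorem mul_ph (l b : ℕ) : ((b : ℝ) + 1) * ph n l = ((l : ℝ) + 1) * ph n b := by
  unfold ph
  ring

theorem SM_apply' (l b : Fin n) : SM n l b = sin (((l : ℕ) + 1) * ph n b) := by
  rw [SM_apply, mul_ph]

theorem SM_symm : (SM n).transpose = SM n := by
  ext l b
  rw [Matrix.transpose_apply, SM_apply, SM_apply']

theorem succ_mul_ph (b : ℕ) : ((n : ℝ) + 1) * ph n b = (b + 1 : ℕ) * π := by
  unfold ph
  have : (n : ℝ) + 1 ≠ 0 := by positivity
  push_cast
  field_simp

theorem sin_succ_mul_ph (b : ℕ) : sin (((n : ℝ) + 1) * ph n b) = 0 := by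
  rw [succ_mul_ph, sin_nat_mul_pi]

theorem lm_inj {a b : Fin n} (h : lm n a = lm n b) : a = b := by
  unfold lm at h
  have hr : ∀ c : Fin n, ph n c ∈ Set.Icc 0 π := by
    intro c
    unfold ph
    refine ⟨by positivity, ?_⟩
    rw [div_le_iff₀ (by positivity)]
    have h : ((c : ℕ) : ℝ) + 1 ≤ n := by exact_mod_cast c.2
    nlinarith [pi_pos]
  have h2 := injOn_cos (hr a) (hr b) (by linarith)
  unfold ph at h2
  have h3 : (n : ℝ) + 1 ≠ 0 := by positivity
  have h4 := pi_pos.ne'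
  field_simp at h2
  have h5 : ((a : ℕ) : ℝ) = (b : ℕ) := by linarith
  exact Fin.ext (by exact_mod_cast h5)

theorem lm_ne (hn : Even n) (b : Fin n) : lm n b ≠ 0 := by
  unfold lm
  intro h
  have h0 : cos (ph n b) = 0 := by linarith
  rw [cos_eq_zero_iff] at h0
  obtain ⟨k, hk⟩ := h0
  unfold ph at hk
  have h3 : (n : ℝ) + 1 ≠ 0 := by positivity
  have h4 := pi_pos.ne'
  field_simp at hk
  have h5 : (2 * ((b : ℕ) : ℤ) + 2 : ℤ) = (2 * k + 1) * (n + 1) := by
    have : ((2 * ((b : ℕ) : ℤ) + 2 : ℤ) : ℝ) = (((2 * k + 1) * (n + 1) : ℤ) : ℝ) := by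
      push_cast
      linarith
    exact_mod_cast this
  have h6 : Even (2 * ((b : ℕ) : ℤ) + 2 : ℤ) := ⟨(b : ℕ) + 1, by ring⟩
  rw [h5, Int.even_mul] at h6
  obtain ⟨r, hr⟩ := hn
  rcases h6 with ⟨c, hc⟩ | ⟨c, hc⟩
  · omega
  · omega

/-- the Gram matrix is diagonal -/
theorem gram_off {a b : Fin n} (hab : a ≠ b) : (SM n * SM n) a b = 0 := by
  have hne : lm n a - lm n b ≠ 0 := fun h => hab (lm_inj (by linarith))
  have key : (SM n * SM n) a b * (lm n a - lm n b) = 0 := by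
    rw [Matrix.mul_apply]
    have h1 : ∀ r : Fin n, SM n a r * SM n r b = sin (((r : ℕ) + 1) * ph n a) * sin (((r : ℕ) + 1) * ph n b) := by
      intro r
      rw [SM_apply, SM_apply']
    simp only [h1]
    rw [Fin.sum_univ_eq_sum_range (fun r : ℕ => sin (((r : ℕ) + 1) * ph n a) * sin (((r : ℕ) + 1) * ph n b)) n,
      Finset.sum_mul]
    have h2 : ∀ r : ℕ, sin (((r : ℕ) + 1) * ph n a) * sin (((r : ℕ) + 1) * ph n b) * (lm n a - lm n b) =
        (sin ((((r + 1 : ℕ) : ℝ) + 1) * ph n a) * sin (((r + 1 : ℕ) : ℝ) * ph n b) -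
          sin (((r + 1 : ℕ) : ℝ) * ph n a) * sin ((((r + 1 : ℕ) : ℝ) + 1) * ph n b)) -
        (sin (((r : ℝ) + 1) * ph n a) * sin ((r : ℝ) * ph n b) -
          sin ((r : ℝ) * ph n a) * sin (((r : ℝ) + 1) * ph n b)) := by
      intro r
      have e1 : ∀ x : ℝ, (((r + 1 : ℕ) : ℝ) + 1) * x = ((r : ℝ) + 1) * x + x := by
        intro x; push_cast; ring
      have e2 : ∀ x : ℝ, (r : ℝ) * x = ((r : ℝ) + 1) * x - x := by intro x; ring
      rw [e1, e1, e2, e2]
      push_cast
      rw [sin_add, sin_add, sin_sub, sin_sub]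
      unfold lm
      ring
    rw [Finset.sum_congr rfl fun r _ => h2 r]
    rw [Finset.sum_range_sub (fun r : ℕ => (sin (((r : ℝ) + 1) * ph n a) * sin ((r : ℝ) * ph n b) -
          sin ((r : ℝ) * ph n a) * sin (((r : ℝ) + 1) * ph n b)))]
    rw [sin_succ_mul_ph, sin_succ_mul_ph]
    simp
  exact (mul_eq_zero.1 key).resolve_right hne

/-- the squared lengths -/
noncomputable def dd (n : ℕ) (b : Fin n) : ℝ := (SM n * SM n) b b

theorem gram : SM n * SM n = diagonal (dd n) := by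
  ext a b
  by_cases h : a = b
  · subst h
    rw [diagonal_apply_eq]
    rfl
  · rw [gram_off h, diagonal_apply_ne _ h]

theorem SM_rev (l b : Fin n) : SM n l (Fin.rev b) = (-1) ^ (l : ℕ) * SM n l b := by
  rw [SM_apply, SM_apply]
  have h1 : ((Fin.rev b : ℕ) : ℝ) + 1 = ((n : ℝ) + 1) - ((b : ℕ) + 1) := by
    rw [Fin.val_rev]
    have : (b : ℕ) + 1 ≤ n := b.2
    push_cast [Nat.cast_sub this]
    ring
  rw [h1, sub_mul, succ_mul_ph, sin_sub, sin_nat_mul_pi, cos_nat_mul_pi, pow_succ]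
  ring

theorem jm_SM : Pool.Agent.Y118.HP.jm ℝ n * SM n =
    Matrix.of fun r b : Fin n => -(lm n b) * SM n r (Fin.rev b) := by
  ext r b
  have h0 : (Pool.Agent.Y118.HP.jm ℝ n * SM n) r b =
      (Pool.Agent.Y118.HP.jm ℝ n *ᵥ (fun s => SM n s b)) r := rfl
  rw [h0, Pool.Agent.Y118.HP.jm_mulVec, Matrix.of_apply, SM_rev]
  have h1 : (if (r : ℕ) = 0 then (0 : ℝ) else Pool.Agent.Y118.HP.ext0 (fun s => SM n s b) (r - 1)) =
      sin ((r : ℕ) * ph n b) := by
    by_cases hr : (r : ℕ) = 0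
    · rw [if_pos hr, hr]
      simp
    · rw [if_neg hr]
      have hr' : (r : ℕ) - 1 < n := by have := r.2; omega
      rw [Pool.Agent.Y118.HP.ext0, dif_pos hr', SM_apply']
      congr 2
      have : ((r : ℕ) - 1 + 1 : ℕ) = (r : ℕ) := by omega
      exact_mod_cast this
  have h2 : Pool.Agent.Y118.HP.ext0 (fun s => SM n s b) (r + 1) = sin (((r : ℕ) + 2) * ph n b) := by
    by_cases hr : (r : ℕ) + 1 < n
    · rw [Pool.Agent.Y118.HP.ext0, dif_pos hr, SM_apply']
      congr 2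
      push_cast
      ring
    · rw [Pool.Agent.Y118.HP.ext0, dif_neg hr]
      have h3 : (r : ℕ) + 1 = n := by have := r.2; omega
      have h4 : ((r : ℕ) : ℝ) + 2 = (n : ℝ) + 1 := by
        have h5 : (((r : ℕ) : ℝ) + 1) = n := by exact_mod_cast h3
        linarith
      rw [h4, sin_succ_mul_ph]
  rw [h1, h2, SM_apply']
  have e1 : ((r : ℕ) : ℝ) * ph n b = (((r : ℕ) : ℝ) + 1) * ph n b - ph n b := by ring
  have e2 : (((r : ℕ) : ℝ) + 2) * ph n b = (((r : ℕ) : ℝ) + 1) * ph n b + ph n b := by ring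
  rw [e1, e2, sin_sub, sin_add]
  unfold lm
  ring

/-- the coefficient matrix -/
def CMx (R : Type*) [Ring R] (n : ℕ) : Matrix (Fin n) (Fin n) R := Matrix.of fun b j => ((cc j b : ℤ) : R)

theorem perM_eq (hn : Even n) : Pool.Agent.Y118.HP.perM (ed n) =
    SM n * diagonal (fun b : Fin n => II n b) * CMx ℝ n := by
  ext l j
  rw [Matrix.mul_apply]
  simp only [Matrix.mul_diagonal, SM_apply, CMx, Matrix.of_apply]
  unfold Pool.Agent.Y118.HP.perM
  rw [Matrix.of_apply, per_eq hn,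
    Fin.sum_univ_eq_sum_range (fun b : ℕ => sin (((b : ℕ) + 1) * ph n l) * II n b * ((cc j b : ℤ) : ℝ)) n]

theorem perM_det (hn : Even n) : (Pool.Agent.Y118.HP.perM (ed n)).det ≠ 0 := by
  intro h
  have h1 := congrArg Matrix.det (Pool.Agent.Y118.HP.legendre hn (ed n) (ed_strictMono n))
  rw [Matrix.det_mul, Matrix.det_mul, h, zero_mul, zero_mul, Matrix.det_smul] at h1
  have h2 := Pool.Agent.Y118.HP.jm_det (K := ℝ) hn
  have h3 : (π : ℝ) ^ Fintype.card (Fin n) ≠ 0 := pow_ne_zero _ pi_pos.ne'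
  exact (mul_ne_zero h3 h2) h1.symm

theorem SM_det (hn : Even n) : (SM n).det ≠ 0 := by
  intro h
  apply perM_det hn
  rw [perM_eq hn, Matrix.det_mul, Matrix.det_mul, h, zero_mul, zero_mul]

theorem CMx_det (hn : Even n) : (CMx ℝ n).det ≠ 0 := by
  intro h
  apply perM_det hn
  rw [perM_eq hn, Matrix.det_mul, h, mul_zero]

/-- the transformed matrix of the Legendre relations -/
noncomputable def AM (n : ℕ) : Matrix (Fin n) (Fin n) ℝ :=
  CMx ℝ n * Pool.Agent.Y118.HP.qm n (dickson 1 (1 : ℝ) (n + 1)) * (CMx ℝ n).transpose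

theorem main_rel (hn : Even n) : diagonal (fun b : Fin n => II n b) * AM n *
    diagonal (fun b : Fin n => II n b) * diagonal (dd n) =
      Matrix.of fun k b : Fin n => if k = Fin.rev b then -(π * lm n b) else 0 := by
  have h1 := Pool.Agent.Y118.HP.legendre hn (ed n) (ed_strictMono n)
  rw [← dick_prod hn, perM_eq hn, Matrix.transpose_mul, Matrix.transpose_mul, SM_symm,
    Matrix.diagonal_transpose] at h1
  have h2 : SM n * (diagonal (fun b : Fin n => II n b) * AM n *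
      diagonal (fun b : Fin n => II n b) * diagonal (dd n)) = π • (Pool.Agent.Y118.HP.jm ℝ n * SM n) := by
    rw [← Matrix.smul_mul, ← h1, ← gram]
    unfold AM
    simp only [Matrix.mul_assoc]
  rw [jm_SM] at h2
  have h3 : SM n * (Matrix.of fun k b : Fin n => if k = Fin.rev b then -(π * lm n b) else 0) =
      π • Matrix.of fun r b : Fin n => -(lm n b) * SM n r (Fin.rev b) := by
    ext r b
    rw [Matrix.mul_apply, Matrix.smul_apply, Matrix.of_apply]
    simp only [Matrix.of_apply, mul_ite, mul_zero, Finset.sum_ite_eq', Finset.mem_univ, if_true, smul_eq_mul]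
    ring
  rw [← h3] at h2
  have hu : IsUnit (SM n).det := (SM_det hn).isUnit
  have h4 := congrArg (fun M => (SM n)⁻¹ * M) h2
  simp only [← Matrix.mul_assoc] at h4
  rw [Matrix.nonsing_inv_mul _ hu] at h4
  simpa only [Matrix.one_mul, Matrix.mul_assoc] using h4

theorem rel_rev (hn : Even n) (b : Fin n) :
    II n (Fin.rev b) * AM n (Fin.rev b) b * II n b * dd n b = -(π * lm n b) := by
  have h := congrFun (congrFun (main_rel hn) (Fin.rev b)) b
  rw [Matrix.mul_diagonal, Matrix.mul_diagonal, Matrix.diagonal_mul, Matrix.of_apply, if_pos rfl] at h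
  exact h

end Pool.Agent.H82.DK
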