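import Pool.Agent.H82.DK.C
import Pool.Agent.T44.EF.Stm

/-!
# The stub DICK of the project EF
-/

set_option autoImplicit false

open Real Matrix Polynomial

namespace Pool.Agent.H82.DK

variable {n : ℕ}

theorem alg_ext {x : ℝ} (h : IsAlgebraic ℤ x) : IsAlgebraic ℚ x :=
  h.extendScalars (algebraMap ℤ ℚ).injective_int

theorem alg_two {K : Type*} [Field K] [Algebra ℚ K] : IsAlgebraic ℚ (2 : K) := by
  have h : (2 : K) = algebraMap ℚ K 2 := (map_ofNat (algebraMap ℚ K) 2).symm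
  rw [h]
  exact isAlgebraic_algebraMap _

theorem alg_sum {ι : Type*} (s : Finset ι) (f : ι → ℝ) (h : ∀ i ∈ s, IsAlgebraic ℚ (f i)) :
    IsAlgebraic ℚ (∑ i ∈ s, f i) := by
  classical
  induction s using Finset.induction_on with
  | empty => rw [Finset.sum_empty]; exact isAlgebraic_zero
  | insert a s ha ih =>
    rw [Finset.sum_insert ha]
    exact (h a (Finset.mem_insert_self _ _)).add (ih fun i hi => h i (Finset.mem_insert_of_mem hi))

theorem alg_ph_sin (b k : ℕ) : IsAlgebraic ℚ (sin (((k : ℝ) + 1) * ph n b)) := by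
  have h := Real.isAlgebraic_sin_rat_mul_pi (((k : ℚ) + 1) * (b + 1) / (n + 1))
  have e : ((((k : ℚ) + 1) * (b + 1) / (n + 1) : ℚ) : ℝ) * π = ((k : ℝ) + 1) * ph n b := by
    unfold ph
    push_cast
    ring
  rw [e] at h
  exact alg_ext h

theorem alg_lm (b : ℕ) : IsAlgebraic ℚ (lm n b) := by
  have h := Real.isAlgebraic_cos_rat_mul_pi (((b : ℚ) + 1) / (n + 1))
  have e : ((((b : ℚ) + 1) / (n + 1) : ℚ) : ℝ) * π = ph n b := by
    unfold ph
    push_cast
    ring
  rw [e] at h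
  unfold lm
  exact alg_two.mul (alg_ext h)

theorem alg_SM (l b : Fin n) : IsAlgebraic ℚ (SM n l b) := by
  rw [SM_apply]
  exact alg_ph_sin _ _

theorem alg_dd (b : Fin n) : IsAlgebraic ℚ (dd n b) := by
  unfold dd
  rw [Matrix.mul_apply]
  exact alg_sum _ _ fun i _ => (alg_SM _ _).mul (alg_SM _ _)

theorem dick_map (n : ℕ) : (dickson 1 (1 : ℚ) n).map (algebraMap ℚ ℝ) = dickson 1 (1 : ℝ) n := by
  rw [map_dickson, map_one]

theorem alg_qm (i j : Fin n) : IsAlgebraic ℚ (Pool.Agent.Y118.HP.qm n (dickson 1 (1 : ℝ) (n + 1)) i j) := by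
  unfold Pool.Agent.Y118.HP.qm
  rw [Matrix.of_apply, ← dick_map, coeff_map]
  refine IsAlgebraic.mul ?_ (isAlgebraic_algebraMap _)
  have : ((((i : ℕ) : ℝ) - ((j : ℕ) : ℝ)) / 2) = algebraMap ℚ ℝ ((((i : ℕ) : ℚ) - ((j : ℕ) : ℚ)) / 2) := by
    simp
  rw [this]
  exact isAlgebraic_algebraMap _

theorem alg_CMx (i j : Fin n) : IsAlgebraic ℚ (CMx ℝ n i j) := by
  unfold CMx
  rw [Matrix.of_apply]
  exact isAlgebraic_intCast _

theorem alg_AM (i j : Fin n) : IsAlgebraic ℚ (AM n i j) := by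
  unfold AM
  rw [Matrix.mul_apply]
  refine alg_sum _ _ fun k _ => ?_
  rw [Matrix.mul_apply, Finset.sum_mul]
  exact alg_sum _ _ fun r _ => ((alg_CMx _ _).mul (alg_qm _ _)).mul (alg_CMx _ _)

/-- the algebraic factors -/
noncomputable def al (n : ℕ) (b : Fin n) : ℝ := II n (Fin.rev b) * II n b / π

theorem rhs_ne (hn : Even n) (b : Fin n) : -(π * lm n b) ≠ 0 :=
  neg_ne_zero.2 (mul_ne_zero pi_pos.ne' (lm_ne hn b))

theorem II_ne (hn : Even n) (b : Fin n) : II n b ≠ 0 := by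
  intro h
  have := rel_rev hn b
  rw [h, mul_zero, zero_mul] at this
  exact rhs_ne hn b this.symm

theorem al_ne (hn : Even n) (b : Fin n) : al n b ≠ 0 :=
  div_ne_zero (mul_ne_zero (II_ne hn _) (II_ne hn _)) pi_pos.ne'

theorem alg_al (hn : Even n) (b : Fin n) : IsAlgebraic ℚ (al n b) := by
  have h := rel_rev hn b
  have hp := pi_pos.ne'
  have hA : AM n (Fin.rev b) b ≠ 0 := by
    intro h0
    rw [h0, mul_zero, zero_mul, zero_mul] at h
    exact rhs_ne hn b h.symm
  have hd : dd n b ≠ 0 := by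
    intro h0
    rw [h0, mul_zero] at h
    exact rhs_ne hn b h.symm
  have e : al n b = -(lm n b) * (AM n (Fin.rev b) b * dd n b)⁻¹ := by
    unfold al
    rw [← div_eq_mul_inv, div_eq_div_iff hp (mul_ne_zero hA hd)]
    linear_combination h
  rw [e]
  exact (alg_lm _).neg.mul ((alg_AM _ _).mul (alg_dd _)).inv

theorem er_eq (hn : Even n) : Pool.Agent.Y118.HP.er (fun i => ed n ((⟨n / 2, by omega⟩ : Fin (n + 1)).succAbove i))
    (⟨n / 2, by omega⟩ : Fin (n + 1)) 0 = ed n := by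
  funext i
  rcases Fin.eq_self_or_eq_succAbove (⟨n / 2, by omega⟩ : Fin (n + 1)) i with h | ⟨k, h⟩
  · rw [h, ed_mid hn]
    simp [Pool.Agent.Y118.HP.er]
  · rw [h]
    simp [Pool.Agent.Y118.HP.er]

theorem X_mul_f (hn : Even n) : X * (dickson 1 (1 : ℚ) (n + 1)).divX = dickson 1 (1 : ℚ) (n + 1) := by
  have h0 : (dickson 1 (1 : ℚ) (n + 1)).coeff 0 = 0 := by
    have h1 := ed_root hn ⟨n / 2, by omega⟩
    rw [ed_mid hn, ← coeff_zero_eq_eval_zero, ← dick_map, coeff_map] at h1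
    exact (map_eq_zero _).1 h1
  have h2 := divX_mul_X_add (dickson 1 (1 : ℚ) (n + 1))
  rw [h0, C_0, add_zero, mul_comm] at h2
  exact h2

/-- the exponents -/
def ex (n : ℕ) (b : Fin n) (k : Fin (n / 2)) : ℤ :=
  if (k : ℕ) = b then 1 else if (k : ℕ) = n - 1 - b then -1 else 0

/-- the correcting factors -/
noncomputable def ww (n : ℕ) (b : Fin n) : ℂ := if (b : ℕ) < n / 2 then 1 else (al n b : ℂ)

/-- the parameters -/
noncomputable def tht (n : ℕ) (k : Fin (n / 2)) : ℂ := (II n k : ℂ) / ((√π : ℝ) : ℂ)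

theorem tht_ne (hn : Even n) (k : Fin (n / 2)) : tht n k ≠ 0 := by
  have h1 : II n k ≠ 0 := II_ne hn ⟨k, by have := k.2; omega⟩
  have h2 : √π ≠ 0 := (sqrt_pos.2 pi_pos).ne'
  exact div_ne_zero (by exact_mod_cast h1) (by exact_mod_cast h2)

theorem II_fac (hn : Even n) (b : Fin n) :
    (II n b : ℂ) = ((√π : ℝ) : ℂ) * (ww n b * ∏ k, tht n k ^ ex n b k) := by
  have hs : ((√π : ℝ) : ℂ) ≠ 0 := by exact_mod_cast (sqrt_pos.2 pi_pos).ne'
  have hs2 : ((√π : ℝ) : ℂ) * ((√π : ℝ) : ℂ) = (π : ℂ) := by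
    rw [← Complex.ofReal_mul, mul_self_sqrt pi_pos.le]
  obtain ⟨r, hr⟩ := hn
  by_cases hb : (b : ℕ) < n / 2
  · have hprod : ∏ k, tht n k ^ ex n b k = tht n ⟨b, hb⟩ := by
      rw [Finset.prod_eq_single (⟨b, hb⟩ : Fin (n / 2))]
      · unfold ex
        rw [if_pos rfl, zpow_one]
      · intro k _ hk
        unfold ex
        have h1 : (k : ℕ) ≠ b := fun h => hk (Fin.ext h)
        have h2 : (k : ℕ) ≠ n - 1 - b := by have := k.2; omega
        rw [if_neg h1, if_neg h2, zpow_zero]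
      · intro h
        exact absurd (Finset.mem_univ _) h
    rw [hprod]
    unfold ww tht
    rw [if_pos hb, one_mul, mul_div_cancel₀ _ hs]
  · have hk0 : n - 1 - (b : ℕ) < n / 2 := by have := b.2; omega
    have hprod : ∏ k, tht n k ^ ex n b k = (tht n ⟨n - 1 - b, hk0⟩)⁻¹ := by
      rw [Finset.prod_eq_single (⟨n - 1 - b, hk0⟩ : Fin (n / 2))]
      · unfold ex
        rw [if_neg (by simp only; omega), if_pos rfl, _root_.zpow_neg_one]
      · intro k _ hk
        unfold ex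
        have h1 : (k : ℕ) ≠ b := by have := k.2; omega
        have h2 : (k : ℕ) ≠ n - 1 - b := fun h => hk (Fin.ext h)
        rw [if_neg h1, if_neg h2, zpow_zero]
      · intro h
        exact absurd (Finset.mem_univ _) h
    have hrev : ((Fin.rev b : Fin n) : ℕ) = n - 1 - b := by rw [Fin.val_rev]; omega
    have hIr : (II n (n - 1 - (b : ℕ)) : ℂ) ≠ 0 := by
      have := II_ne ⟨r, hr⟩ (Fin.rev b)
      rw [hrev] at this
      exact_mod_cast this
    have hp : (π : ℂ) ≠ 0 := by exact_mod_cast pi_pos.ne'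
    rw [hprod]
    unfold ww tht al
    rw [if_neg hb, hrev]
    push_cast
    rw [inv_div]
    field_simp
    rw [pow_two, hs2]

theorem alg_ofReal {x : ℝ} (h : IsAlgebraic ℚ x) : IsAlgebraic ℚ (x : ℂ) :=
  h.algebraMap (A := ℂ)

theorem alg_dl (l : Fin n) : IsAlgebraic ℚ (Pool.Agent.Y118.HP.dl l) := by
  unfold Pool.Agent.Y118.HP.dl
  have hI : IsAlgebraic ℚ Complex.I := by
    refine ⟨X ^ 2 + 1, ?_, ?_⟩
    · exact (monic_X_pow_add_C (1 : ℚ) two_ne_zero).ne_zero
    · simp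
  exact alg_two.mul (hI.pow _)

theorem main : Pool.Agent.T44.EF.S_DICK := by
  intro n hn _
  refine ⟨(dickson 1 (1 : ℚ) (n + 1)).divX,
    fun i => ed n ((⟨n / 2, by omega⟩ : Fin (n + 1)).succAbove i), ⟨n / 2, by omega⟩,
    X_mul_f hn, ?_, ?_, ?_⟩
  · rw [er_eq hn]
    exact ed_strictMono n
  · have h1 := congrArg (Polynomial.map (algebraMap ℚ ℝ)) (X_mul_f hn)
    rw [Polynomial.map_mul, Polynomial.map_X, dick_map, dick_prod hn,
      Fin.prod_univ_succAbove _ (⟨n / 2, by omega⟩ : Fin (n + 1)), ed_mid hn, C_0, sub_zero] at h1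
    exact mul_left_cancel₀ X_ne_zero h1
  · have hcper : ∀ l j : Fin n, Pool.Agent.Y118.HP.cper (ed n) l j =
        Pool.Agent.Y118.HP.dl l * ((Pool.Agent.Y118.HP.per (ed n) l j : ℝ) : ℂ) :=
      Pool.Agent.Y118.HP.cper_eq hn (ed_strictMono n)
    refine ⟨diagonal Pool.Agent.Y118.HP.dl * (SM n).map (fun x : ℝ => (x : ℂ)) * diagonal (ww n),
      (CMx ℝ n).map (fun x : ℝ => (x : ℂ)), tht n, ex n, ((√π : ℝ) : ℂ), ?_, ?_, ?_, ?_, ?_, tht_ne hn, ?_⟩
    · intro i j
      rw [Matrix.mul_diagonal, Matrix.diagonal_mul, Matrix.map_apply]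
      refine ((alg_dl _).mul (alg_ofReal (alg_SM _ _))).mul ?_
      unfold ww
      split_ifs
      · exact isAlgebraic_one
      · exact alg_ofReal (alg_al hn _)
    · intro i j
      rw [Matrix.map_apply]
      exact alg_ofReal (alg_CMx _ _)
    · rw [Matrix.det_mul, Matrix.det_mul, Matrix.det_diagonal, Matrix.det_diagonal]
      have h1 : ((SM n).map (fun x : ℝ => (x : ℂ))).det = ((SM n).det : ℂ) := by
        have := RingHom.map_det Complex.ofRealHom (SM n)
        exact this.symm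
      rw [h1]
      refine IsUnit.mk0 _ (mul_ne_zero (mul_ne_zero ?_ ?_) ?_)
      · exact Finset.prod_ne_zero_iff.2 fun l _ => Pool.Agent.Y118.HP.dl_ne l
      · exact_mod_cast SM_det hn
      · refine Finset.prod_ne_zero_iff.2 fun b _ => ?_
        unfold ww
        split_ifs
        · exact one_ne_zero
        · exact_mod_cast al_ne hn b
    · have h1 : ((CMx ℝ n).map (fun x : ℝ => (x : ℂ))).det = ((CMx ℝ n).det : ℂ) := by
        have := RingHom.map_det Complex.ofRealHom (CMx ℝ n)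
        exact this.symm
      rw [h1]
      refine IsUnit.mk0 _ ?_
      exact_mod_cast CMx_det hn
    · exact_mod_cast (sqrt_pos.2 pi_pos).ne'
    · rw [er_eq hn]
      ext l j
      rw [Matrix.of_apply, hcper, per_eq hn,
        ← Fin.sum_univ_eq_sum_range (fun b : ℕ => sin (((b : ℕ) + 1) * ph n l) * II n b * ((cc j b : ℤ) : ℝ)) n,
        Matrix.smul_apply, Matrix.mul_apply, Complex.ofReal_sum, Finset.mul_sum, smul_eq_mul, Finset.mul_sum]
      refine Finset.sum_congr rfl fun b _ => ?_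
      rw [Matrix.mul_diagonal, Matrix.mul_diagonal, Matrix.diagonal_mul, Matrix.map_apply, Matrix.map_apply,
        SM_apply]
      have h2 : CMx ℝ n b j = ((cc j b : ℤ) : ℝ) := rfl
      rw [h2, Complex.ofReal_mul, Complex.ofReal_mul, II_fac hn b]
      ring

end Pool.Agent.H82.DK
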